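import Pool.Agent.K3h5.FF.Stm

/-! # Brick INVS: inversions and transpositions -/

set_option autoImplicit false

namespace Pool.Agent.K3h77.FF

open Pool.Agent.K3h5.FF

lemma inv_mul_le {n : ℕ} (π σ : Equiv.Perm (Fin n)) : inv (π * σ) ≤ inv π + inv σ := by
  classical
  set T : Finset (Fin n × Fin n) := Finset.univ.filter fun ij : Fin n × Fin n =>
    ij.1 < ij.2 ∧ σ ij.1 < σ ij.2 ∧ π (σ ij.2) < π (σ ij.1) with hT
  have h1 : (Finset.univ.filter fun ij : Fin n × Fin n =>
      ij.1 < ij.2 ∧ (π * σ) ij.2 < (π * σ) ij.1) ⊆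
      T ∪ (Finset.univ.filter fun ij : Fin n × Fin n => ij.1 < ij.2 ∧ σ ij.2 < σ ij.1) := by
    intro ij hij
    simp only [Finset.mem_filter, Finset.mem_univ, true_and, Equiv.Perm.coe_mul,
      Function.comp_apply] at hij
    simp only [hT, Finset.mem_union, Finset.mem_filter, Finset.mem_univ, true_and]
    rcases lt_trichotomy (σ ij.1) (σ ij.2) with h | h | h
    · exact Or.inl ⟨hij.1, h, hij.2⟩
    · exact absurd (σ.injective h) hij.1.ne
    · exact Or.inr ⟨hij.1, h⟩
  have h2 : T.card ≤ inv π := by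
    unfold inv
    refine Finset.card_le_card_of_injOn (fun ij => (σ ij.1, σ ij.2)) ?_ ?_
    · intro ij hij
      simp only [hT, Finset.coe_filter, Finset.mem_univ, true_and, Set.mem_setOf_eq] at hij ⊢
      exact ⟨hij.2.1, hij.2.2⟩
    · intro a _ b _ hab
      simp only [Prod.mk.injEq, EmbeddingLike.apply_eq_iff_eq] at hab
      exact Prod.ext hab.1 hab.2
  calc inv (π * σ) ≤ (T ∪ (Finset.univ.filter fun ij : Fin n × Fin n =>
        ij.1 < ij.2 ∧ σ ij.2 < σ ij.1)).card := Finset.card_le_card h1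
    _ ≤ T.card + (Finset.univ.filter fun ij : Fin n × Fin n =>
        ij.1 < ij.2 ∧ σ ij.2 < σ ij.1).card := Finset.card_union_le _ _
    _ ≤ inv π + inv σ := Nat.add_le_add_right h2 _

lemma inv_swap_lt {n : ℕ} {x y : Fin n} (h : x < y) :
    inv (Equiv.swap x y) ≤ 2 * (y.val - x.val) := by
  classical
  have h1 : (Finset.univ.filter fun ij : Fin n × Fin n =>
      ij.1 < ij.2 ∧ Equiv.swap x y ij.2 < Equiv.swap x y ij.1) ⊆
      (({x} : Finset (Fin n)) ×ˢ Finset.Ioc x y) ∪ (Finset.Ico x y ×ˢ ({y} : Finset (Fin n))) := by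
    rintro ⟨i, j⟩ hij
    simp only [Finset.mem_filter, Finset.mem_univ, true_and] at hij
    simp only [Finset.mem_union, Finset.mem_product, Finset.mem_singleton, Finset.mem_Ioc,
      Finset.mem_Ico]
    obtain ⟨h2, h3⟩ := hij
    by_cases hix : i = x
    · subst hix
      rw [Equiv.swap_apply_left] at h3
      left
      refine ⟨rfl, h2, ?_⟩
      by_contra hjy
      rw [not_le] at hjy
      rw [Equiv.swap_apply_of_ne_of_ne h2.ne' hjy.ne'] at h3
      exact absurd h3 (not_lt.2 hjy.le)
    · by_cases hjy : j = y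
      · subst hjy
        rw [Equiv.swap_apply_right] at h3
        right
        refine ⟨⟨?_, h2⟩, rfl⟩
        by_contra hxi
        rw [not_le] at hxi
        rw [Equiv.swap_apply_of_ne_of_ne hix h2.ne] at h3
        exact absurd h3 (not_lt.2 hxi.le)
      · exfalso
        by_cases hiy : i = y
        · subst hiy
          rw [Equiv.swap_apply_right, Equiv.swap_apply_of_ne_of_ne (h.trans h2).ne' hjy] at h3
          exact absurd h3 (not_lt.2 (h.trans h2).le)
        · rw [Equiv.swap_apply_of_ne_of_ne hix hiy] at h3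
          by_cases hjx : j = x
          · subst hjx
            rw [Equiv.swap_apply_left] at h3
            exact absurd h3 (not_lt.2 (h2.trans h).le)
          · rw [Equiv.swap_apply_of_ne_of_ne hjx hjy] at h3
            exact absurd h3 (not_lt.2 h2.le)
  calc inv (Equiv.swap x y) ≤ ((({x} : Finset (Fin n)) ×ˢ Finset.Ioc x y) ∪
        (Finset.Ico x y ×ˢ ({y} : Finset (Fin n)))).card := Finset.card_le_card h1
    _ ≤ (({x} : Finset (Fin n)) ×ˢ Finset.Ioc x y).card +
        (Finset.Ico x y ×ˢ ({y} : Finset (Fin n))).card := Finset.card_union_le _ _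
    _ = 2 * (y.val - x.val) := by
        rw [Finset.card_product, Finset.card_product, Finset.card_singleton, Finset.card_singleton,
          Fin.card_Ioc, Fin.card_Ico]
        ring

lemma inv_swap {n : ℕ} (x y : Fin n) :
    (inv (Equiv.swap x y) : ℤ) ≤ 2 * |(x.val : ℤ) - y.val| := by
  rcases lt_trichotomy x y with h | h | h
  · have h1 := inv_swap_lt h
    have h2 : (x.val : ℤ) < y.val := by exact_mod_cast h
    rw [abs_of_neg (by linarith)]
    have h3 : ((y.val - x.val : ℕ) : ℤ) = (y.val : ℤ) - x.val :=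
      Nat.cast_sub (by exact_mod_cast h2.le)
    have h4 : (inv (Equiv.swap x y) : ℤ) ≤ 2 * ((y.val - x.val : ℕ) : ℤ) := by exact_mod_cast h1
    rw [h3] at h4
    linarith
  · subst h
    have h1 : inv (Equiv.swap x x) = 0 := by
      unfold inv
      rw [Finset.card_eq_zero, Finset.filter_eq_empty_iff]
      intro ij _ hij
      rw [Equiv.swap_self] at hij
      exact absurd hij.2 (not_lt.2 hij.1.le)
    rw [h1]
    simp
  · have h1 := inv_swap_lt h
    have h2 : (y.val : ℤ) < x.val := by exact_mod_cast h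
    rw [abs_of_pos (by linarith), Equiv.swap_comm]
    have h3 : ((x.val - y.val : ℕ) : ℤ) = (x.val : ℤ) - y.val :=
      Nat.cast_sub (by exact_mod_cast h2.le)
    have h4 : (inv (Equiv.swap y x) : ℤ) ≤ 2 * ((x.val - y.val : ℕ) : ℤ) := by exact_mod_cast h1
    rw [h3] at h4
    linarith

theorem t_INVS : S_INVS := by
  intro n π x y
  have h0 := inv_swap x y
  have h1 : (inv (Equiv.swap x y * π) : ℤ) ≤ inv (Equiv.swap x y) + inv π := by
    exact_mod_cast inv_mul_le _ _
  have h2 : (inv (π * Equiv.swap x y) : ℤ) ≤ inv π + inv (Equiv.swap x y) := by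
    exact_mod_cast inv_mul_le _ _
  constructor <;> linarith

end Pool.Agent.K3h77.FF
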