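import Pool.Agent.K3h75.FF.Stm2

/-!
# Brick TAMF (helper77): wild inertia groups of Dedekind domains are trivial or of prime order
-/

set_option autoImplicit false

namespace Pool.Agent.K3h77.FF

open Pool.Agent.R383.TM

section key

variable {k O : Type} [CommRing k] [CommRing O] [IsDomain O] [IsDedekindDomain O] [Algebra k O]
  {t : O ≃ₐ[k] O} {P : Ideal O}

lemma step_pow (h1 : ∀ o, t o - o ∈ P) (h2 : ∀ o ∈ P, t o - o ∈ P ^ 2) :
    ∀ (m : ℕ) (x : O), x ∈ P ^ (m + 1) → t x - x ∈ P ^ (m + 2) := by
  intro m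
  induction m with
  | zero =>
    intro x hx
    rw [zero_add, pow_one] at hx
    exact h2 x hx
  | succ m ih =>
    intro x hx
    rw [pow_succ] at hx
    refine Submodule.mul_induction_on hx ?_ ?_
    · intro a ha b hb
      have e : t (a * b) - a * b = (t a - a) * t b + a * (t b - b) := by
        rw [map_mul]; ring
      rw [e]
      refine Ideal.add_mem _ ?_ ?_
      · have htb : t b ∈ P := by
          have := P.add_mem (h1 b) hb
          rwa [sub_add_cancel] at this
        have := Ideal.mul_mem_mul (ih a ha) htb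
        rwa [← pow_succ] at this
      · have := Ideal.mul_mem_mul ha (h2 b hb)
        rwa [← pow_add, show m + 1 + 2 = m + 1 + 2 by rfl] at this
    · intro a b ha hb
      have e : t (a + b) - (a + b) = (t a - a) + (t b - b) := by
        rw [map_add]; ring
      rw [e]
      exact Ideal.add_mem _ ha hb

/-- A wild automorphism `≠ 1` with `t ^ r = 1` exists only if `r` is in the prime. -/
lemma prime_mem (hmax : P.IsMaximal) (h1 : ∀ o, t o - o ∈ P)
    (h2 : ∀ o ∈ P, t o - o ∈ P ^ 2) {r : ℕ} (hr : ∀ o, t^[r] o = o) (hne : ∃ o, t o ≠ o) :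
    (r : O) ∈ P := by
  classical
  have hprime : P.IsPrime := hmax.isPrime
  have hex : ∃ n, ∃ o, t o - o ∉ P ^ n := by
    obtain ⟨o, ho⟩ := hne
    by_contra hcon
    push Not at hcon
    have h1 : t o - o ∈ (⨅ n : ℕ, P ^ n : Ideal O) := by
      rw [Submodule.mem_iInf]
      exact fun n => hcon n o
    rw [Ideal.iInf_pow_eq_bot_of_isDomain P hmax.ne_top, Ideal.mem_bot] at h1
    exact ho (sub_eq_zero.1 h1)
  obtain ⟨o, ho⟩ := Nat.find_spec hex
  have hmin : ∀ m < Nat.find hex, ∀ o, t o - o ∈ P ^ m := fun m hm o => by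
    by_contra hcon
    exact Nat.find_min hex hm ⟨o, hcon⟩
  set n := Nat.find hex with hn
  have hn2 : 2 ≤ n := by
    by_contra hcon
    have h3 : n = 0 ∨ n = 1 := by omega
    rcases h3 with h3 | h3
    · rw [h3, pow_zero, Ideal.one_eq_top] at ho
      exact ho trivial
    · rw [h3, pow_one] at ho
      exact ho (h1 o)
  obtain ⟨l, hl⟩ := Nat.exists_eq_add_of_le' hn2
  rw [hl] at ho
  have hl1 : ∀ o, t o - o ∈ P ^ (l + 1) := hmin (l + 1) (by omega)
  set D := t o - o with hD
  have hDD : t D - D ∈ P ^ (l + 2) := step_pow h1 h2 l D (hl1 o)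
  have hpres : ∀ x ∈ P ^ (l + 2), t x ∈ P ^ (l + 2) := by
    intro x hx
    have h3 := step_pow h1 h2 (l + 1) x hx
    have h4 : t x - x ∈ P ^ (l + 2) := Ideal.pow_le_pow_right (Nat.le_succ _) h3
    have := Ideal.add_mem _ h4 hx
    rwa [sub_add_cancel] at this
  have hit : ∀ i : ℕ, t^[i] o - (o + i * D) ∈ P ^ (l + 2) := by
    intro i
    induction i with
    | zero => simp
    | succ i ih =>
      rw [Function.iterate_succ_apply']
      have h3 := hpres _ ih
      have e : t (t^[i] o) - (o + (i + 1 : ℕ) * D) =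
          t (t^[i] o - (o + i * D)) + (i : O) * (t D - D) := by
        rw [map_sub, map_add, map_mul, map_natCast, hD]
        push_cast
        ring
      rw [e]
      exact Ideal.add_mem _ h3 (Ideal.mul_mem_left _ _ hDD)
  have h3 := hit r
  rw [hr, sub_add_cancel_left, neg_mem_iff] at h3
  rcases Ideal.IsPrime.mul_mem_pow P h3 with h4 | h4
  · exact h4
  · exact absurd h4 ho

end key

/-- **TAMF** -/
theorem t_TAMF : Pool.Agent.K3h75.FF.S_TAMF := by
  classical
  intro k O G _ _ _ _ _ _ _ T hfai P hmax hbot hcard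
  have hprime : P.IsPrime := hmax.isPrime
  set W := wildSub T P with hW
  let I : Subgroup G :=
    { carrier := {g | ∀ o, T g o - o ∈ P}
      mul_mem' := by
        intro a b ha hb o
        have h1 : T (a * b) o - o = (T a (T b o) - T b o) + (T b o - o) := by
          rw [map_mul, AlgEquiv.mul_apply]
          ring
        rw [h1]
        exact P.add_mem (ha _) (hb _)
      one_mem' := by
        intro o
        rw [map_one, AlgEquiv.one_apply, sub_self]
        exact P.zero_mem
      inv_mem' := by
        intro a ha o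
        have h2 : T a (T a⁻¹ o) = o := by
          rw [← AlgEquiv.mul_apply, ← map_mul, mul_inv_cancel, map_one, AlgEquiv.one_apply]
        have h1 : T a⁻¹ o - o = -(T a (T a⁻¹ o) - T a⁻¹ o) := by
          rw [h2]
          ring
        rw [h1]
        exact P.neg_mem (ha _) }
  have hWI : W ≤ I := fun g hg => hg.1
  have hdvd : Nat.card W ∣ Nat.card {g // ∀ o, T g o - o ∈ P} := by
    have : Nat.card {g // ∀ o, T g o - o ∈ P} = Nat.card I := rfl
    rw [this]
    exact Subgroup.card_dvd_of_le hWI
  -- prime divisors of the order of `W` are in `P`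
  have hkey : ∀ r : ℕ, r.Prime → r ∣ Nat.card W → (r : O) ∈ P := by
    intro r hr hrW
    haveI := Fact.mk hr
    obtain ⟨g, hg⟩ := exists_prime_orderOf_dvd_card' (G := W) r hrW
    have hg1 : (g : G) ≠ 1 := by
      intro h
      have : g = 1 := Subtype.ext h
      rw [this, orderOf_one] at hg
      exact hr.one_lt.ne hg
    have hgr : (g : G) ^ r = 1 := by
      have := pow_orderOf_eq_one g
      rw [hg] at this
      rw [← Subgroup.coe_pow, this, Subgroup.coe_one]
    have hit : ∀ (i : ℕ) (o : O), (T (g : G))^[i] o = T ((g : G) ^ i) o := by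
      intro i o
      induction i with
      | zero => simp
      | succ i ih =>
        rw [Function.iterate_succ_apply', ih, pow_succ', map_mul, AlgEquiv.mul_apply]
    refine prime_mem (t := T (g : G)) hmax g.2.1 g.2.2 (r := r) (fun o => ?_) ?_
    · rw [hit, hgr, map_one, AlgEquiv.one_apply]
    · by_contra hcon
      push Not at hcon
      exact hg1 (hfai _ hcon)
  by_cases h1 : Nat.card W = 1
  · refine ⟨2, 1, Nat.prime_two, one_pow _, fun g hg1 hg2 => ?_⟩
    have hgW : g ∈ W := ⟨hg1, hg2⟩
    rw [Subgroup.card_eq_one.1 h1, Subgroup.mem_bot] at hgW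
    rw [hgW]
    exact Subgroup.one_mem _
  · obtain ⟨r, hr, hrW⟩ := Nat.exists_prime_and_dvd h1
    have hrP := hkey r hr hrW
    have hr2 : ¬ r ^ 2 ∣ Nat.card W := fun h => hcard r hr hrP (h.trans hdvd)
    obtain ⟨m, hm⟩ := hrW
    have hm1 : m = 1 := by
      by_contra hm1
      obtain ⟨r', hr', hr'm⟩ := Nat.exists_prime_and_dvd hm1
      have hr'P := hkey r' hr' (hm ▸ hr'm.mul_left r)
      by_cases hrr : r' = r
      · subst hrr
        apply hr2
        rw [hm, sq]
        exact Nat.mul_dvd_mul_left _ hr'm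
      · have hco : IsCoprime (r' : ℤ) (r : ℤ) :=
          Nat.isCoprime_iff_coprime.2 ((Nat.coprime_primes hr' hr).2 hrr)
        obtain ⟨a, b, hab⟩ := hco
        apply hmax.ne_top
        rw [Ideal.eq_top_iff_one]
        have h3 : ((a : O) * (r' : O) + (b : O) * (r : O)) = 1 := by
          have := congrArg (fun z : ℤ => (z : O)) hab
          push_cast at this
          exact this
        rw [← h3]
        exact P.add_mem (P.mul_mem_left _ hr'P) (P.mul_mem_left _ hrP)
    rw [hm1, mul_one] at hm
    haveI := Fact.mk hr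
    obtain ⟨g, hg⟩ := exists_prime_orderOf_dvd_card' (G := W) r (by rw [hm])
    have hg1 : g ≠ 1 := by
      rintro rfl
      rw [orderOf_one] at hg
      exact hr.one_lt.ne hg
    refine ⟨r, g, hr, ?_, fun x hx1 hx2 => ?_⟩
    · have := pow_orderOf_eq_one g
      rw [hg] at this
      rw [← Subgroup.coe_pow, this, Subgroup.coe_one]
    · have hx : (⟨x, hx1, hx2⟩ : W) ∈ Subgroup.zpowers g := mem_zpowers_of_prime_card hm hg1
      obtain ⟨j, hj⟩ := Subgroup.mem_zpowers_iff.1 hx
      refine Subgroup.mem_zpowers_iff.2 ⟨j, ?_⟩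
      have := congrArg (fun y : W => (y : G)) hj
      simpa using! this

end Pool.Agent.K3h77.FF
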